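import Mathlib
import Pool.Agent.Lib.PolyTime.Defs
import Pool.Agent.Lib.MP_2cea29_lc.Defs
import Pool.Agent.Lib.MP_2cea29_lc.Sub

/-!
# Gap-ETH rules out an `o(k)`-FPT-approximation of Densest k-Subgraph

Let a 3-CNF formula with `n` variables be given. Variables of high degree are fixed by brute
force. For the others we take `2 ^ O(n / r)` independent random partial assignments: every
variable gets the value `false` or `true` with probability `1 / (r + 1)` each, and is undefined
otherwise. The number of samples is such that a given total assignment extends about `k ^ 2` of
them. The vertices of the graph are the samples which falsify no clause, two of them are adjacent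
if they do not contradict each other. A satisfying assignment gives a clique with `k` vertices.

If every assignment violates an `ε` fraction of the clauses, then every set of `k` vertices spans
at most `g * k` edges, where `g` depends only on `ε` and `r`. Otherwise there are disjoint sets
`J` and `I` of samples with `|I| = C |J|` such that every `i ∈ I` is adjacent to `d` members of
`J`. For a set `e` of `d` samples let `A` be the set of variables on which they are all
undefined and `K` the set of those on which they contradict each other. A first moment bound
shows that `(1 - 1 / r) ^ |A| (1 + 1 / r) ^ |K|` is not exponentially small, and then a random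
sample is adjacent to all members of `e` with a probability which is smaller, by an exponential
factor, than the inverse of the number of samples: it contributes
`(1 + 1 / r) ^ |A| (1 - 1 / r) ^ |K|`, and, if `A` and `K` are small, then `e` determines an
assignment up to a small number of variables, and the sample has to avoid the clauses violated by
this assignment. A second first moment bound shows that the sets `I` and `J` do not exist.
-/

namespace Pool.Agent.Results.MP_2cea29_lc.NoFPTApprox

open Pool.Agent.MP2cea29

/-- Randomized Gap-ETH (no algorithm in time `2 ^ (δ n)`) implies that there is no algorithm for
Densest k-Subgraph with approximation ratio `α k` and running time `f k * |G| ^ t k`, whenever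
`α k * (t k + 1) ^ 7 = o(k)`; in particular there is no `o(k)`-FPT-approximation algorithm. The
weaker form of the hypothesis (no algorithm in time `2 ^ o(n)`) implies that there is no
FPT-approximation algorithm (with computable `f`) whose ratio is bounded by a computable function
`a` with `a k = o(k)`. -/
theorem result :
    (RandomizedGapETH → ∀ (α : ℕ → ℝ) (f t : ℕ → ℕ),
      Filter.Tendsto (fun k => α k * (t k + 1 : ℝ) ^ 7 / k) Filter.atTop (nhds 0) →
        ¬ DkSApprox α f t) ∧
    (SubexpGapETH → ∀ (α : ℕ → ℝ) (a f : ℕ → ℕ) (t : ℕ), Computable a → Computable f →
      (∀ k, α k ≤ a k) → Filter.Tendsto (fun k => (a k : ℝ) / k) Filter.atTop (nhds 0) →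
        ¬ DkSApprox α f fun _ => t) :=
  ⟨fun h _ _ _ hα => main h hα, fun h _ _ _ _ ha hf hαa hlim => main2 h ha hf hαa hlim⟩

end Pool.Agent.Results.MP_2cea29_lc.NoFPTApprox
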